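import Pool.Agent.K7.H22.LW.Stm

set_option autoImplicit false

/-!
# Project LW, job Z: choice of the parameters
-/

open Finset

namespace Pool.Agent.K7.H16.LW

open Pool.Agent.K7.H22.LW

theorem two_pow_exp (n : ℕ) : (2 : ℝ) ^ n = Real.exp (n * Real.log 2) := by
  rw [Real.exp_nat_mul, Real.exp_log (by norm_num)]

/-- the level sets of `Psi p a` are level sets of `FF p` -/
theorem card_psi (hW : StW) (p : ℕ) [hp : Fact p.Prime] (h2 : p ≠ 2) (a : ZMod p) (h : ℤ) :
    ((range p).filter fun t => Psi p a t = h).card ≤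
      (univ.filter fun x : ZMod p => FF p x = h + FF p (a - 1)).card := by
  apply card_le_card_of_injOn (fun t : ℕ => a + (t : ZMod p))
  · intro t ht
    have ht' := (mem_filter.1 ht).2
    have h3 := (hW p h2).2 a t
    refine mem_coe.2 (mem_filter.2 ⟨mem_univ _, ?_⟩)
    show FF p (a + (t : ZMod p)) = h + FF p (a - 1)
    rw [ht'] at h3
    omega
  · intro t ht t' ht' heq
    have h1 := mem_range.1 (mem_filter.1 ht).1
    have h1' := mem_range.1 (mem_filter.1 ht').1
    have h3 : (t : ZMod p) = (t' : ZMod p) := add_left_cancel heq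
    rw [ZMod.natCast_eq_natCast_iff'] at h3
    rwa [Nat.mod_eq_of_lt h1, Nat.mod_eq_of_lt h1'] at h3

/-- JOB Z -/
theorem z (hJ : StJ) (hW : StW) : StZ := by
  refine ⟨1 / 200, by norm_num, ⌈Real.exp (Real.exp 10000)⌉₊, ?_⟩
  intro p hpf hp a h
  have hp' : Real.exp (Real.exp 10000) ≤ (p : ℝ) :=
    (Nat.le_ceil _).trans (by exact_mod_cast hp)
  have hp0 : (0 : ℝ) < p := lt_of_lt_of_le (Real.exp_pos _) hp'
  obtain ⟨l, hl⟩ : ∃ l, Real.log (p : ℝ) = l := ⟨_, rfl⟩
  have hl1 : Real.exp 10000 ≤ l := by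
    rw [← hl]; exact (Real.le_log_iff_exp_le hp0).2 hp'
  have hl0 : 0 < l := lt_of_lt_of_le (Real.exp_pos _) hl1
  obtain ⟨L, hL⟩ : ∃ L, Real.log l = L := ⟨_, rfl⟩
  have hL1 : 10000 ≤ L := by
    rw [← hL]; exact (Real.le_log_iff_exp_le hl0).2 hl1
  have hLe : Real.exp L = l := by rw [← hL, Real.exp_log hl0]
  obtain ⟨x, hx⟩ : ∃ x, Real.sqrt l = x := ⟨_, rfl⟩
  have hxe : x = Real.exp (L / 2) := by
    rw [← hx, ← hLe]
    rw [show Real.exp L = Real.exp (L / 2) ^ 2 by rw [← Real.exp_nat_mul]; congr 1; push_cast; ring]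
    exact Real.sqrt_sq (Real.exp_pos _).le
  have hx2 : x ^ 2 = l := by rw [← hx]; exact Real.sq_sqrt hl0.le
  have hxL : L ^ 2 / 8 ≤ x := by
    have := Real.quadratic_le_exp_of_nonneg (x := L / 2) (by linarith)
    rw [hxe]
    nlinarith
  have hx0 : 0 < x := by rw [hxe]; exact Real.exp_pos _
  have hL0 : 0 < L := by linarith
  have hx1 : 1000 ≤ x := by nlinarith
  obtain ⟨y, hy⟩ : ∃ y, x / L = y := ⟨_, rfl⟩
  have hyx : y * L = x := by rw [← hy]; field_simp
  have hy1 : 1250 ≤ y := by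
    by_contra hcon
    push Not at hcon
    nlinarith
  have hyx' : y ≤ x := by nlinarith
  obtain ⟨k, hk⟩ : ∃ k, ⌊y⌋₊ = k := ⟨_, rfl⟩
  have hky : (k : ℝ) ≤ y := by rw [← hk]; exact Nat.floor_le (by linarith)
  have hyk : y < k + 1 := by rw [← hk]; exact Nat.lt_floor_add_one y
  have hk1 : 1 ≤ k := by
    have : (1 : ℝ) ≤ k := by linarith
    exact_mod_cast this
  obtain ⟨N, hN⟩ : ∃ N, ⌈2 * L⌉₊ = N := ⟨_, rfl⟩
  have hN1 : 2 * L ≤ N := by rw [← hN]; exact Nat.le_ceil _
  have hN2 : (N : ℝ) < 2 * L + 1 := by rw [← hN]; exact Nat.ceil_lt_add_one (by linarith)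
  have hlog2 : 1 / 2 < Real.log 2 := by have := Real.log_two_gt_d9; linarith
  have hlog2' : Real.log 2 < 1 := by have := Real.log_two_lt_d9; linarith
  -- the second condition
  have h2N : l ≤ (2 : ℝ) ^ N := by
    rw [two_pow_exp, ← hLe]
    apply Real.exp_le_exp.2
    nlinarith
  have hc2 : 100 * k ≤ 2 ^ (N + 7) := by
    have : (100 * k : ℝ) ≤ 2 ^ (N + 7) := by
      rw [pow_add]
      have h3 : (k : ℝ) ≤ l := by nlinarith
      nlinarith
    exact_mod_cast this
  -- the third condition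
  have hc3 : 2 ^ (500 * k * (36 + k * (36 + (N + 7)))) ≤ p := by
    have : (2 : ℝ) ^ (500 * k * (36 + k * (36 + (N + 7)))) ≤ p := by
      rw [two_pow_exp, ← Real.exp_log hp0, hl]
      apply Real.exp_le_exp.2
      push_cast
      have h3 : (500 * k * (36 + k * (36 + (N + 7))) : ℝ) ≤
          500 * y * (36 + y * (36 + (2 * L + 1 + 7))) := by
        have : (0 : ℝ) ≤ k := Nat.cast_nonneg k
        gcongr
      have h4 : 500 * y * (36 + y * (36 + (2 * L + 1 + 7))) ≤ l := by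
        have h5 : 500 * y * (36 + y * (36 + (2 * L + 1 + 7))) =
            18000 * y + 22000 * y ^ 2 + 1000 * y * x := by
          rw [← hyx]; ring
        rw [h5, ← hx2]
        have h6 : y * 10000 ≤ x := by nlinarith
        nlinarith
      have h7 : (0 : ℝ) ≤ 500 * k * (36 + k * (36 + (N + 7))) := by positivity
      exact (mul_le_of_le_one_right h7 hlog2'.le).trans (h3.trans h4)
    exact_mod_cast this
  have hp2 : p ≠ 2 := by
    rintro rfl
    have h3 : (10000 : ℝ) + 1 ≤ Real.exp 10000 := Real.add_one_le_exp _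
    have h4 : Real.exp 10000 + 1 ≤ Real.exp (Real.exp 10000) := Real.add_one_le_exp _
    push_cast at hp'
    linarith
  have hcard := hJ p hp2 (h + FF p (a - 1)) k (N + 7) k hk1 hc2 hc3
  have hcard' : (((range p).filter fun t => Psi p a t = h).card : ℝ) ≤
      ((49 / 50 : ℝ) ^ k + 200 * (1 / 2) ^ k) * p :=
    le_trans (by exact_mod_cast card_psi hW p hp2 a h) hcard
  refine hcard'.trans ?_
  rw [hl, hL, hx, mul_comm]
  apply mul_le_mul_of_nonneg_left _ hp0.le
  have h8 : (49 / 50 : ℝ) ^ k ≤ Real.exp (-(k : ℝ) / 50) := by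
    have h9 : (49 / 50 : ℝ) ≤ Real.exp (-(1 / 50)) := by
      have := Real.add_one_le_exp (-(1 / 50 : ℝ))
      linarith
    calc (49 / 50 : ℝ) ^ k ≤ Real.exp (-(1 / 50)) ^ k := pow_le_pow_left₀ (by norm_num) h9 k
      _ = Real.exp (-(k : ℝ) / 50) := by rw [← Real.exp_nat_mul]; congr 1; ring
  have h10 : (1 / 2 : ℝ) ^ k ≤ (49 / 50 : ℝ) ^ k := pow_le_pow_left₀ (by norm_num) (by norm_num) k
  have h11 : (201 : ℝ) ≤ Real.exp (y / 200) := by
    have h12 : Real.exp 6 ≤ Real.exp (y / 200) := Real.exp_le_exp.2 (by linarith)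
    have h13 : (201 : ℝ) ≤ Real.exp 6 := by
      have h14 : (2.7 : ℝ) ≤ Real.exp 1 := by have := Real.exp_one_gt_d9; linarith
      calc (201 : ℝ) ≤ 2.7 ^ 6 := by norm_num
        _ ≤ Real.exp 1 ^ 6 := pow_le_pow_left₀ (by norm_num) h14 6
        _ = Real.exp 6 := by rw [← Real.exp_nat_mul]; congr 1; norm_num
    linarith
  have h15 : Real.exp (-(k : ℝ) / 50) ≤ Real.exp (-(y / 100)) := Real.exp_le_exp.2 (by linarith)
  calc (49 / 50 : ℝ) ^ k + 200 * (1 / 2) ^ k ≤ 201 * (49 / 50 : ℝ) ^ k := by linarith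
    _ ≤ Real.exp (y / 200) * Real.exp (-(y / 100)) := by
        apply mul_le_mul h11 (h8.trans h15) (by positivity) (Real.exp_pos _).le
    _ = Real.exp (-(1 / 200) * x / L) := by
        rw [← Real.exp_add, mul_div_assoc, hy]
        congr 1
        ring

end Pool.Agent.K7.H16.LW
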